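import Pool.Agent.Run7.h840.IfaceB

/-!
# Piece B2 (grid) of the project of helper840
-/

set_option autoImplicit false

namespace Run7.h704.UD

open Run7.h840

/-- a vertex tight to a pair is at distance almost one from its true member -/
theorem tight_dist {P : Vx → ℂ} {c : Bool → Vx} {x : Vx} (h : Tight P c x) {T : ℝ}
    (hT : ‖P (c true) - P (c false)‖ ≤ T) : |‖P x - P (c true)‖ - 1| ≤ T := by
  obtain ⟨b, h1, h2⟩ := h
  rw [norm_sub_rev (P x)]
  rw [abs_le]
  have ht := norm_sub_le_norm_sub_add_norm_sub (P (c true)) (P (c false)) (P x)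
  have ht' := norm_sub_le_norm_sub_add_norm_sub (P (c false)) (P (c true)) (P x)
  rw [norm_sub_rev (P (c false)) (P (c true))] at ht'
  have h0 := norm_nonneg (P (c true) - P (c false))
  cases b
  · simp only [Bool.not_false] at h2
    constructor <;> linarith
  · simp only [Bool.not_true] at h2
    constructor <;> linarith

theorem four_le_irOf {mB p : ℕ} (hp : p < mB) : 4 * p + 2 ≤ irOf mB := by
  unfold irOf; omega

theorem irOf_le {mB nL : ℕ} (hm : 1 ≤ mB) : irOf mB ≤ iendOf mB nL := by
  unfold irOf iendOf nXof; omega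

/-- one cell of the grid -/
theorem cell (hcell : S_cell) {σ : ℕ → ℕ → Bool} {mB nL : ℕ} {P : Vx → ℂ} (F : Facts σ mB nL P)
    {l i : ℕ} (hl : l + 1 < 8 * nL) (hi : i + 1 ≤ irOf mB) {T : ℝ} (hT0 : 0 ≤ T)
    (hT : T ≤ 1/1000) (hc : thk P l i ≤ T) (ha : thk P l (i+1) ≤ T) (hb : thk P (l+1) i ≤ T)
    (b' : Bool) :
    ‖P (.g (l+1) (i+1) b') - (P (.g l (i+1) true) + P (.g (l+1) i true) - P (.g l i true))‖
      ≤ 10 * T := by
  have h1 : |‖P (.g l (i+1) true) - P (.g l i true)‖ - 1| ≤ T := by
    rcases Nat.eq_zero_or_pos l with h0 | h0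
    · subst h0
      have hw := F.whB i (by have := irOf_le (nL := nL) F.hm; omega) (.g 0 i true)
        (Or.inl ⟨true, rfl⟩)
      have ht := hw.1 0
      have e : rims (.g 0 i true) (.bd (i+1)) 0 = .g 0 i true := by simp [rims]
      rw [e] at ht
      have := tight_dist ht ha
      rwa [norm_sub_rev] at this
    · exact tight_dist (F.rowT l i true h0 (by omega) hi) hc
  have h2 : |‖P (.g (l+1) i true) - P (.g l i true)‖ - 1| ≤ T :=
    tight_dist (F.colT l i true hl (by omega)) hc
  have h3 : |‖P (.g (l+1) (i+1) b') - P (.g l (i+1) true)‖ - 1| ≤ T :=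
    tight_dist (F.colT l (i+1) b' hl hi) ha
  have h4 : |‖P (.g (l+1) (i+1) b') - P (.g (l+1) i true)‖ - 1| ≤ T :=
    tight_dist (F.rowT (l+1) i b' (by omega) hl hi) hb
  have h5 := F.diag1 l i hl hi
  have h6 := F.diag2 l i b' hl hi
  rw [norm_sub_rev] at h6
  exact hcell T hT0 hT _ _ _ _ h5 h6 h1 h2 h3 h4

theorem B2 (hcell : S_cell) : S_B2 := by
  intro σ mB nL P F p hp E₀ hE0 hE hrow hcol
  have hir := four_le_irOf hp
  have small : ∀ n ≤ 8 * nL + 4 * p + 2, (20:ℝ)^n * E₀ ≤ 1/1000 := by
    intro n hn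
    refine le_trans ?_ hE
    gcongr
    calc (20:ℝ)^n ≤ 100^n := by gcongr; norm_num
      _ ≤ 100^(8 * nL + 4 * p + 2) := by gcongr; norm_num
  have e0 : ∀ n : ℕ, E₀ ≤ 20^n * E₀ := fun n =>
    le_mul_of_one_le_left hE0 (one_le_pow₀ (by norm_num))
  intro l
  induction l with
  | zero =>
    intro hl i hi
    refine ⟨(hrow i hi).trans (e0 _), ?_⟩
    have : P (.g 0 i true) - (P (.g 0 0 true) + P (.g 0 i true) - P (.g 0 0 true)) = 0 := by ring
    rw [this, norm_zero]
    positivity
  | succ l ihl =>
    intro hl i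
    induction i with
    | zero =>
      intro hi
      refine ⟨(hcol (l+1) hl).trans (e0 _), ?_⟩
      have : P (.g (l+1) 0 true) - (P (.g (l+1) 0 true) + P (.g 0 0 true) - P (.g 0 0 true)) = 0 := by
        ring
      rw [this, norm_zero]
      positivity
    | succ i ihi =>
      intro hi
      obtain ⟨c1, c2⟩ := ihl (by omega) i (by omega)
      obtain ⟨a1, a2⟩ := ihl (by omega) (i+1) hi
      obtain ⟨b1, b2⟩ := ihi (by omega)
      have eb : l + 1 + i = l + i + 1 := by ring
      have ea : l + (i + 1) = l + i + 1 := by ring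
      have ex : l + 1 + (i + 1) = l + i + 2 := by ring
      rw [eb] at b1 b2
      rw [ea] at a1 a2
      rw [ex]
      set T : ℝ := 20^(l+i+1) * E₀ with hT
      have hT0 : 0 ≤ T := by positivity
      have hc : thk P l i ≤ T := by
        refine c1.trans ?_
        rw [hT]
        exact mul_le_mul_of_nonneg_right (pow_le_pow_right₀ (by norm_num) (by omega)) hE0
      have cl := cell hcell F (l := l) (i := i) hl (by omega) hT0 (small _ (by omega)) hc a1 b1
      have ct := cl true
      have cf := cl false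
      constructor
      · unfold thk
        have := norm_sub_le_norm_sub_add_norm_sub (P (.g (l+1) (i+1) true))
          (P (.g l (i+1) true) + P (.g (l+1) i true) - P (.g l i true)) (P (.g (l+1) (i+1) false))
        rw [norm_sub_rev (P (.g l (i+1) true) + P (.g (l+1) i true) - P (.g l i true))
          (P (.g (l+1) (i+1) false))] at this
        have e : (20:ℝ)^(l+i+2) * E₀ = 20 * T := by rw [hT]; ring
        rw [e]
        linarith
      · have e : P (.g (l+1) (i+1) true) - (P (.g (l+1) 0 true) + P (.g 0 (i+1) true)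
            - P (.g 0 0 true))
            = (P (.g (l+1) (i+1) true) - (P (.g l (i+1) true) + P (.g (l+1) i true)
                - P (.g l i true)))
              + (P (.g l (i+1) true) - (P (.g l 0 true) + P (.g 0 (i+1) true) - P (.g 0 0 true)))
              + (P (.g (l+1) i true) - (P (.g (l+1) 0 true) + P (.g 0 i true) - P (.g 0 0 true)))
              - (P (.g l i true) - (P (.g l 0 true) + P (.g 0 i true) - P (.g 0 0 true))) := by
          ring
        rw [e]
        refine (norm_sub_le _ _).trans ?_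
        refine (add_le_add (norm_add₃_le) le_rfl).trans ?_
        have f1 : 10 * T ≤ 10 * (100^(l+i+1) * E₀) := by
          rw [hT]; gcongr; norm_num
        have f2 : (100:ℝ)^(l+i) * E₀ ≤ 100^(l+i+1) * E₀ :=
          mul_le_mul_of_nonneg_right (pow_le_pow_right₀ (by norm_num) (by omega)) hE0
        have f3 : (100:ℝ)^(l+i+2) * E₀ = 100 * (100^(l+i+1) * E₀) := by ring
        have f4 : 0 ≤ (100:ℝ)^(l+i+1) * E₀ := by positivity
        rw [f3]
        linarith

end Run7.h704.UD
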