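import Pool.Agent.Run7.h704.UD.B2

/-!
# Piece B4 (end of the soundness proof) of the project of helper840
-/

set_option autoImplicit false

namespace Run7.h704.UD

open Run7.h840 Complex

/-- the two bounds in terms of one tiny number -/
theorem bounds {s : ℝ} {N a b c : ℕ} (hN : 1 ≤ N) (hs0 : 0 < s) (hs : s ≤ (1/10)^(150 * N))
    (ha : a ≤ 8 * N) (hb : b ≤ 8 * N) (hc : c ≤ 8 * N + 1) :
    (100:ℝ)^c * 1000 * (20^b * (40^a * 200 * s^2)) ≤ s / 10^6 := by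
  have h1 : (40:ℝ)^a ≤ 40^(8*N) := pow_le_pow_right₀ (by norm_num) ha
  have h2 : (20:ℝ)^b ≤ 20^(8*N) := pow_le_pow_right₀ (by norm_num) hb
  have h3 : (100:ℝ)^c ≤ 100^(8*N+1) := pow_le_pow_right₀ (by norm_num) hc
  calc (100:ℝ)^c * 1000 * (20^b * (40^a * 200 * s^2))
      ≤ 100^(8*N+1) * 1000 * (20^(8*N) * (40^(8*N) * 200 * s^2)) := by gcongr
    _ = (100 * 20 * 40)^(8*N) * (2 * 10^7) * s * s := by rw [mul_pow, mul_pow]; ring
    _ ≤ ((10:ℝ)^5)^(8*N) * (10^8) * s * (1/10)^(150*N) := by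
        gcongr
        · norm_num
        · norm_num
    _ ≤ s / 10^6 := by
        have e1 : ((10:ℝ)^5)^(8*N) = 10^(40*N) := by rw [← pow_mul]; congr 1; ring
        have e2 : ((1:ℝ)/10)^(150*N) = (1/10)^(40*N) * (1/10)^(110*N) := by
          rw [← pow_add]; congr 1; ring
        have e3 : (10:ℝ)^(40*N) * (1/10)^(40*N) = 1 := by
          rw [← mul_pow]; norm_num
        have e4 : ((1:ℝ)/10)^(110*N) ≤ (1/10)^14 :=
          pow_le_pow_of_le_one (by norm_num) (by norm_num) (by omega)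
        rw [e1, e2]
        calc (10:ℝ)^(40*N) * 10^8 * s * ((1/10)^(40*N) * (1/10)^(110*N))
            = (10^(40*N) * (1/10)^(40*N)) * (10^8 * s * (1/10)^(110*N)) := by ring
          _ = 10^8 * s * (1/10)^(110*N) := by rw [e3, one_mul]
          _ ≤ 10^8 * s * (1/10)^14 := by gcongr
          _ = s / 10^6 := by ring

/-- the approximations for one value of `p` -/
theorem approx (h1 : S_B1) (h2 : S_B2) (h3 : S_B3) {σ : ℕ → ℕ → Bool} {mB nL : ℕ} {P : Vx → ℂ}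
    (F : Facts σ mB nL P) {p : ℕ} (hp : p < mB) : ∃ s : ℝ, 0 < s ∧ s ≤ 1/10^6 ∧
    s / 10 ≤ ‖P (.gp 0 (4 * p + 2) true) - P (.g 0 (4 * p + 2) true)‖ ∧
    (∀ l < 8 * nL, ∀ i ≤ 4 * p + 2, thk P l i ≤ s/10^6 ∧
      ‖P (.g l i true) - (P (.g l 0 true) + P (.g 0 i true) - P (.g 0 0 true))‖ ≤ s/10^6) ∧
    ∀ l < 8 * nL, ‖P (.gp l (4 * p + 2) true) - (P (.gp 0 (4 * p + 2) true) +
      P (.g l (4 * p + 1) true) - P (.g 0 (4 * p + 1) true))‖ ≤ s/10^6 := by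
  obtain ⟨s, hs0, hs, hrow, hcol, hv⟩ := h1 σ mB nL P F p hp
  set N := mB + nL + 1 with hN
  have hN1 : 1 ≤ N := by omega
  have hs6 : s ≤ 1/10^6 := by
    refine hs.trans ?_
    calc ((1:ℝ)/10)^(150*N) ≤ (1/10)^6 :=
          pow_le_pow_of_le_one (by norm_num) (by norm_num) (by omega)
      _ = _ := by norm_num
  set a := 4 * p + 2 + 8 * nL with ha
  have haN : a ≤ 8 * N := by omega
  set E₀ : ℝ := 40^a * 200 * s^2 with hE0
  have hE00 : 0 ≤ E₀ := by positivity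
  have g2 := h2 σ mB nL P F p hp E₀ hE00 (by
      have := bounds hN1 hs0 hs haN (b := 0) (c := 8 * nL + 4 * p + 2) (by omega) (by omega)
      have h4 : (100:ℝ)^(8 * nL + 4 * p + 2) * E₀
          ≤ 100^(8 * nL + 4 * p + 2) * 1000 * (20^0 * (40^a * 200 * s^2)) := by
        rw [pow_zero, one_mul]
        have : 0 ≤ (100:ℝ)^(8 * nL + 4 * p + 2) * E₀ := by positivity
        rw [← hE0]
        linarith
      refine h4.trans (this.trans ?_)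
      linarith)
    (fun i hi => (hrow i hi).trans (by
      rw [hE0]
      have : (40:ℝ)^(4*p+2) ≤ 40^a := pow_le_pow_right₀ (by norm_num) (by omega)
      gcongr))
    (fun l hl => (hcol l hl).trans (by
      rw [hE0]
      have : (40:ℝ)^(4*p+2+l) ≤ 40^a := pow_le_pow_right₀ (by norm_num) (by omega)
      gcongr))
  set E : ℝ := 20^a * E₀ with hE
  have hE0' : 0 ≤ E := by positivity
  have gE : ∀ l < 8 * nL, ∀ i ≤ 4 * p + 2, thk P l i ≤ E := by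
    intro l hl i hi
    refine (g2 l hl i hi).1.trans ?_
    exact mul_le_mul_of_nonneg_right (pow_le_pow_right₀ (by norm_num) (by omega)) hE00
  have g3 := h3 σ mB nL P F p hp E hE0' (by
      have := bounds hN1 hs0 hs haN (b := a) (c := 8 * nL) haN (by omega)
      rw [← hE0, ← hE] at this
      have h5 : 0 ≤ (100:ℝ)^(8*nL) * E := by positivity
      nlinarith) gE
  refine ⟨s, hs0, hs6, hv, fun l hl i hi => ⟨?_, ?_⟩, fun l hl => ?_⟩
  · refine (gE l hl i hi).trans ?_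
    have := bounds hN1 hs0 hs haN (b := a) (c := 0) haN (by omega)
    rw [← hE0, ← hE] at this
    linarith
  · refine (g2 l hl i hi).2.trans ?_
    have := bounds hN1 hs0 hs haN (b := 0) (c := l + i) (by omega) (by omega)
    rw [← hE0, pow_zero, one_mul] at this
    have h5 : 0 ≤ (100:ℝ)^(l+i) * E₀ := by positivity
    linarith
  · refine (g3 l hl).trans ?_
    have := bounds hN1 hs0 hs haN (b := a) (c := l + 1) haN (by omega)
    rw [← hE0, ← hE] at this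
    exact this

theorem fsum (z z' A B : ℂ) : ‖B‖^2 - ‖A‖^2 + dt ((z + z')/2) (2 * (A - B))
    = ((‖z - B‖^2 - ‖z - A‖^2) + (‖z' - B‖^2 - ‖z' - A‖^2))/2 := by
  simp only [← Complex.normSq_eq_norm_sq, Complex.normSq_apply, dt]
  simp
  ring

theorem close {u v : ℂ} {c : ℝ} (h : ‖u - v‖ ≤ c) : ‖u‖ - c ≤ ‖v‖ ∧ ‖v‖ ≤ ‖u‖ + c := by
  have h1 := norm_sub_norm_le u v
  have h2 := norm_sub_norm_le v u
  rw [norm_sub_rev v u] at h2
  constructor <;> linarith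

theorem up {α n e : ℝ} (hα : 0 ≤ α) (h : α ≤ n + 3 * e) (_ : 0 ≤ n) (hn : n ≤ 1) (he0 : 0 < e)
    (he1 : e ≤ 1/10^6) : α^2 ≤ n^2 + 7 * e := by
  have h1 : α^2 ≤ (n + 3 * e)^2 := by gcongr
  have h2 : n * e ≤ 1 * e := by gcongr
  have h3 : e * e ≤ 1/10^6 * e := by gcongr
  nlinarith

theorem lo {α n e : ℝ} (h : n - 3 * e ≤ α) (hn : 1 ≤ n) (hn2 : n ≤ 11/10) (he0 : 0 < e)
    (he1 : e ≤ 1/10^6) : n^2 - 7 * e ≤ α^2 := by
  have h0 : 0 ≤ n - 3 * e := by linarith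
  have h1 : (n - 3 * e)^2 ≤ α^2 := by gcongr
  have h2 : n * e ≤ 11/10 * e := by gcongr
  have h3 : 0 ≤ e * e := by positivity
  nlinarith

theorem lo1 {α n e : ℝ} (h : n - 3 * e ≤ α) (hn : 1 ≤ n) (he0 : 0 < e)
    (he1 : e ≤ 1/10^6) : 1 - 6 * e ≤ α^2 := by
  have h0 : 0 ≤ 1 - 3 * e := by linarith
  have h1 : (1 - 3 * e)^2 ≤ α^2 := by gcongr; linarith
  have h3 : 0 ≤ e * e := by positivity
  nlinarith

/-- real numbers: the case `σ = true` -/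
theorem case_true {n1 n2 d α1 α2 β1 β2 m1 m2 e s : ℝ} (he0 : 0 < e) (he1 : e ≤ 1/10^6)
    (hse : s = 10^6 * e) (hd : s/10 - 3 * e ≤ d) (n10 : 0 ≤ n1) (n20 : 0 ≤ n2)
    (a10 : 0 ≤ α1) (a20 : 0 ≤ α2) (p1 : n1 ≤ 1) (p2 : n2 ≤ 1) (q1 : 1 < m1) (q2 : 1 < m2)
    (u1 : α1 ≤ n1 + 3 * e) (u2 : α2 ≤ n2 + 3 * e) (l1 : m1 - 3 * e ≤ β1) (l2 : m2 - 3 * e ≤ β2)
    (dirr : 9/10 ≤ n1 → 9/10 ≤ n2 → d/2 ≤ |n1^2 - n2^2|) :
    0 < ((β1^2 - α1^2) + (β2^2 - α2^2))/2 := by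
  have b1 := lo1 l1 q1.le he0 he1
  have b2 := lo1 l2 q2.le he0 he1
  have a1 := up a10 u1 n10 p1 he0 he1
  have a2 := up a20 u2 n20 p2 he0 he1
  have i1 : n1^2 ≤ 1 := pow_le_one₀ n10 p1
  have i2 : n2^2 ≤ 1 := pow_le_one₀ n20 p2
  have key : n1^2 + n2^2 < 2 - 26 * e := by
    by_cases q1 : n1 < 9/10
    · have : n1^2 ≤ (9/10)^2 := by gcongr
      linarith
    by_cases q2 : n2 < 9/10
    · have : n2^2 ≤ (9/10)^2 := by gcongr
      linarith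
    push Not at q1 q2
    have := dirr q1 q2
    rcases abs_cases (n1^2 - n2^2) with ⟨h, -⟩ | ⟨h, -⟩ <;> rw [h] at this <;> linarith
  linarith

/-- real numbers: the case `σ = false` -/
theorem case_false {n1 n2 d α1 α2 β1 β2 m1 m2 e s : ℝ} (he0 : 0 < e) (he1 : e ≤ 1/10^6)
    (hse : s = 10^6 * e) (hd : s/10 - 3 * e ≤ d) (m10 : 0 ≤ m1) (m20 : 0 ≤ m2)
    (b10 : 0 ≤ β1) (b20 : 0 ≤ β2) (p1 : 1 < n1) (p2 : 1 < n2) (q1 : m1 ≤ 1) (q2 : m2 ≤ 1)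
    (u1 : β1 ≤ m1 + 3 * e) (u2 : β2 ≤ m2 + 3 * e) (l1 : n1 - 3 * e ≤ α1) (l2 : n2 - 3 * e ≤ α2)
    (dirr : n1 ≤ 11/10 → n2 ≤ 11/10 → d/2 ≤ |n1^2 - n2^2|) :
    ((β1^2 - α1^2) + (β2^2 - α2^2))/2 < 0 := by
  have b1 := up b10 u1 m10 q1 he0 he1
  have b2 := up b20 u2 m20 q2 he0 he1
  have j1 : m1^2 ≤ 1 := pow_le_one₀ m10 q1
  have j2 : m2^2 ≤ 1 := pow_le_one₀ m20 q2
  have a1 := lo1 l1 p1.le he0 he1
  have a2 := lo1 l2 p2.le he0 he1
  have i1 : 1 ≤ n1^2 := one_le_pow₀ p1.le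
  have i2 : 1 ≤ n2^2 := one_le_pow₀ p2.le
  have key : 2 + 14 * e < α1^2 + α2^2 := by
    by_cases q1 : 11/10 < n1
    · have : (109/100)^2 ≤ α1^2 := by gcongr; linarith
      linarith
    by_cases q2 : 11/10 < n2
    · have : (109/100)^2 ≤ α2^2 := by gcongr; linarith
      linarith
    push Not at q1 q2
    have := dirr q1 q2
    have a3 := lo l1 p1.le q1 he0 he1
    have a4 := lo l2 p2.le q2 he0 he1
    rcases abs_cases (n1^2 - n2^2) with ⟨h, -⟩ | ⟨h, -⟩ <;> rw [h] at this <;> linarith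
  linarith

/-- the geometry of one test -/
theorem test_geom (hdir : S_dir) {e s : ℝ} (he : e = s/10^6) (hs0 : 0 < s) (hs6 : s ≤ 1/10^6)
    {zz zz' AA BB hh Q X X' x2 x2' x1 x0 a3 a4 a6 a0 o : ℂ}
    (hv : s / 10 ≤ ‖x2' - x2‖)
    (k1 : ‖zz - (a3 + x2 - o)‖ ≤ e) (k2 : ‖AA - (a6 + x0 - o)‖ ≤ e)
    (k3 : ‖BB - (a0 + x0 - o)‖ ≤ e) (k4 : ‖hh - (a3 + x1 - o)‖ ≤ e)
    (k5 : ‖Q - (a4 + x1 - o)‖ ≤ e) (k6 : ‖X - (a4 + x2 - o)‖ ≤ e)
    (k7 : ‖zz' - (x2' + hh - x1)‖ ≤ e) (k8 : ‖X' - (x2' + Q - x1)‖ ≤ e)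
    (T1 : |‖zz - hh‖ - 1| ≤ e) (T2 : |‖zz' - hh‖ - 1| ≤ e) (T3 : |‖Q - hh‖ - 1| ≤ e)
    (D1 : 1 < ‖zz - Q‖) (D2 : 1 < ‖hh - X‖) (D3 : 1 < ‖zz' - Q‖) (D4 : 1 < ‖hh - X'‖)
    (D5 : 1 < ‖AA - hh‖) (D6 : ‖AA - Q‖ ≤ 1) (D7 : ‖zz' - zz‖ ≤ 1) :
    (‖AA - zz‖ ≤ 1 ∧ 1 < ‖BB - zz‖ → ‖AA - zz'‖ ≤ 1 ∧ 1 < ‖BB - zz'‖ →
      0 < ‖a0 - a3‖^2 - ‖a6 - a3‖^2
        + dt ((x2 - x0 + (x2' - x0))/2) (2 * ((a6 - a3) - (a0 - a3)))) ∧
    (1 < ‖AA - zz‖ ∧ ‖BB - zz‖ ≤ 1 → 1 < ‖AA - zz'‖ ∧ ‖BB - zz'‖ ≤ 1 →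
      ‖a0 - a3‖^2 - ‖a6 - a3‖^2
        + dt ((x2 - x0 + (x2' - x0))/2) (2 * ((a6 - a3) - (a0 - a3))) < 0) := by
  have he0 : 0 < e := by rw [he]; positivity
  have he1 : e ≤ 1/10^6 := by rw [he]; linarith
  have hse : s = 10^6 * e := by rw [he]; ring
  rw [fsum]
  -- approximations of the four vectors
  have c1 : ‖(AA - zz) - -((x2 - x0) - (a6 - a3))‖ ≤ 3 * e := by
    have : (AA - zz) - -((x2 - x0) - (a6 - a3))
        = (AA - (a6 + x0 - o)) - (zz - (a3 + x2 - o)) := by ring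
    rw [this]
    have := norm_sub_le (AA - (a6 + x0 - o)) (zz - (a3 + x2 - o))
    linarith
  have c2 : ‖(AA - zz') - -((x2' - x0) - (a6 - a3))‖ ≤ 3 * e := by
    have : (AA - zz') - -((x2' - x0) - (a6 - a3))
        = (AA - (a6 + x0 - o)) - (zz' - (x2' + hh - x1)) - (hh - (a3 + x1 - o)) := by ring
    rw [this]
    have h1 := norm_sub_le ((AA - (a6 + x0 - o)) - (zz' - (x2' + hh - x1))) (hh - (a3 + x1 - o))
    have h2 := norm_sub_le (AA - (a6 + x0 - o)) (zz' - (x2' + hh - x1))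
    linarith
  have c3 : ‖(BB - zz) - -((x2 - x0) - (a0 - a3))‖ ≤ 3 * e := by
    have : (BB - zz) - -((x2 - x0) - (a0 - a3))
        = (BB - (a0 + x0 - o)) - (zz - (a3 + x2 - o)) := by ring
    rw [this]
    have := norm_sub_le (BB - (a0 + x0 - o)) (zz - (a3 + x2 - o))
    linarith
  have c4 : ‖(BB - zz') - -((x2' - x0) - (a0 - a3))‖ ≤ 3 * e := by
    have : (BB - zz') - -((x2' - x0) - (a0 - a3))
        = (BB - (a0 + x0 - o)) - (zz' - (x2' + hh - x1)) - (hh - (a3 + x1 - o)) := by ring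
    rw [this]
    have h1 := norm_sub_le ((BB - (a0 + x0 - o)) - (zz' - (x2' + hh - x1))) (hh - (a3 + x1 - o))
    have h2 := norm_sub_le (BB - (a0 + x0 - o)) (zz' - (x2' + hh - x1))
    linarith
  obtain ⟨c1l, c1u⟩ := close c1
  obtain ⟨c2l, c2u⟩ := close c2
  obtain ⟨c3l, c3u⟩ := close c3
  obtain ⟨c4l, c4u⟩ := close c4
  rw [norm_neg] at c1l c1u c2l c2u c3l c3u c4l c4u
  have c5 : ‖(x2' - x2) - (zz' - zz)‖ ≤ 3 * e := by
    have : (x2' - x2) - (zz' - zz)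
        = (zz - (a3 + x2 - o)) - (zz' - (x2' + hh - x1)) - (hh - (a3 + x1 - o)) := by ring
    rw [this]
    have h1 := norm_sub_le ((zz - (a3 + x2 - o)) - (zz' - (x2' + hh - x1))) (hh - (a3 + x1 - o))
    have h2 := norm_sub_le (zz - (a3 + x2 - o)) (zz' - (x2' + hh - x1))
    linarith
  obtain ⟨c5l, -⟩ := close c5
  have hd1 : 99/100 < ‖(hh - zz) - (Q - hh)‖ := by
    have c : ‖(hh - X) - ((hh - zz) - (Q - hh))‖ ≤ 4 * e := by
      have : (hh - X) - ((hh - zz) - (Q - hh)) = (zz - (a3 + x2 - o)) + (Q - (a4 + x1 - o))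
          - (X - (a4 + x2 - o)) - (hh - (a3 + x1 - o)) := by ring
      rw [this]
      have h1 := norm_sub_le ((zz - (a3 + x2 - o)) + (Q - (a4 + x1 - o))
          - (X - (a4 + x2 - o))) (hh - (a3 + x1 - o))
      have h2 := norm_sub_le ((zz - (a3 + x2 - o)) + (Q - (a4 + x1 - o))) (X - (a4 + x2 - o))
      have h3 := norm_add_le (zz - (a3 + x2 - o)) (Q - (a4 + x1 - o))
      linarith
    have := (close c).1
    linarith
  have hd2 : 99/100 < ‖(hh - zz') - (Q - hh)‖ := by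
    have c : ‖(hh - X') - ((hh - zz') - (Q - hh))‖ ≤ 4 * e := by
      have : (hh - X') - ((hh - zz') - (Q - hh)) = (zz' - (x2' + hh - x1))
          - (X' - (x2' + Q - x1)) := by ring
      rw [this]
      have h1 := norm_sub_le (zz' - (x2' + hh - x1)) (X' - (x2' + Q - x1))
      linarith
    have := (close c).1
    linarith
  have hzz : s/10 - 3 * e ≤ ‖zz - zz'‖ := by
    rw [norm_sub_rev]; linarith
  have dirr : 9/10 ≤ ‖AA - zz‖ → ‖AA - zz‖ ≤ 11/10 → 9/10 ≤ ‖AA - zz'‖ → ‖AA - zz'‖ ≤ 11/10 →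
      ‖zz - zz'‖/2 ≤ |‖AA - zz‖^2 - ‖AA - zz'‖^2| := fun q1 q2 q3 q4 =>
    hdir e he0.le (by linarith) hh zz zz' Q AA T1 T2 T3 D1 D3 hd1 hd2 D5 D6 q1 q2 q3 q4
      (by rw [norm_sub_rev]; exact D7) (by linarith)
  constructor
  · rintro ⟨p1, p2⟩ ⟨p3, p4⟩
    exact case_true he0 he1 hse hzz (norm_nonneg _) (norm_nonneg _) (norm_nonneg _)
      (norm_nonneg _) p1 p3 p2 p4 c1u c2u c3l c4l
      (fun q1 q2 => dirr q1 (by linarith) q2 (by linarith))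
  · rintro ⟨p1, p2⟩ ⟨p3, p4⟩
    exact case_false he0 he1 hse hzz (norm_nonneg _) (norm_nonneg _) (norm_nonneg _)
      (norm_nonneg _) p1 p3 p2 p4 c3u c4u c1l c2l
      (fun q1 q2 => dirr (by linarith) q1 (by linarith) q2)

theorem B4 (h1 : S_B1) (h2 : S_B2) (h3 : S_B3) (hdir : S_dir) : S_B4 := by
  intro σ mB nL P F
  refine ⟨fun p => (P (.g 0 (4*p+2) true) - P (.g 0 (4*p) true)
      + (P (.gp 0 (4*p+2) true) - P (.g 0 (4*p) true))) / 2,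
    fun j => 2 * ((P (.g (8*j+6) 0 true) - P (.g (8*j+3) 0 true))
      - (P (.g (8*j) 0 true) - P (.g (8*j+3) 0 true))),
    fun j => ‖P (.g (8*j) 0 true) - P (.g (8*j+3) 0 true)‖^2
      - ‖P (.g (8*j+6) 0 true) - P (.g (8*j+3) 0 true)‖^2, fun p hp j hj => ?_⟩
  beta_reduce
  obtain ⟨s, hs0, hs6, hv, g2, g3⟩ := approx h1 h2 h3 F hp
  have hir := four_le_irOf hp
  -- names
  set e : ℝ := s/10^6 with he
  have he0 : 0 < e := by positivity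
  obtain ⟨-, k1⟩ := g2 (8*j+3) (by omega) (4*p+2) le_rfl
  obtain ⟨-, k2⟩ := g2 (8*j+6) (by omega) (4*p) (by omega)
  obtain ⟨-, k3⟩ := g2 (8*j) (by omega) (4*p) (by omega)
  obtain ⟨t4, k4⟩ := g2 (8*j+3) (by omega) (4*p+1) (by omega)
  obtain ⟨-, k5⟩ := g2 (8*j+4) (by omega) (4*p+1) (by omega)
  obtain ⟨-, k6⟩ := g2 (8*j+4) (by omega) (4*p+2) le_rfl
  have k7 := g3 (8*j+3) (by omega)
  have k8 := g3 (8*j+4) (by omega)
  have T1 : |‖P (.g (8*j+3) (4*p+2) true) - P (.g (8*j+3) (4*p+1) true)‖ - 1| ≤ e :=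
    tight_dist (F.rowT (8*j+3) (4*p+1) true (by omega) (by omega) (by omega)) t4
  have T2 : |‖P (.gp (8*j+3) (4*p+2) true) - P (.g (8*j+3) (4*p+1) true)‖ - 1| ≤ e :=
    tight_dist (F.prR (8*j+3) (4*p+2) true (by omega) (by omega) (by omega) (by omega)) t4
  have T3 : |‖P (.g (8*j+4) (4*p+1) true) - P (.g (8*j+3) (4*p+1) true)‖ - 1| ≤ e :=
    tight_dist (F.colT (8*j+3) (4*p+1) true (by omega) (by omega)) t4
  have D1 := F.diag1 (8*j+3) (4*p+1) (by omega) (by omega)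
  have D2 := F.diag2 (8*j+3) (4*p+1) true (by omega) (by omega)
  have D3 := F.prd1 (8*j+3) (4*p+2) (by omega) (by omega) (by omega)
  have D4 := F.prd2 (8*j+3) (4*p+2) true (by omega) (by omega) (by omega)
  have e21 : 4 * p + 2 - 1 = 4 * p + 1 := by omega
  rw [e21] at D3 D4
  have D5 := F.dir1 p hp j hj
  have D6 := F.dir2 p hp j hj
  have D7 := F.prn (8*j+3) (4*p+2) (by omega) (by omega) (by omega)
  obtain ⟨tt, tf⟩ := F.tst p hp j hj _ (Or.inl rfl)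
  obtain ⟨tt', tf'⟩ := F.tst p hp j hj _ (Or.inr rfl)
  simp only [show 4 * p + 1 + 1 = 4 * p + 2 from rfl, show 8 * j + 3 + 1 = 8 * j + 4 from rfl]
    at D1 D2 D3 D4
  generalize P (.g (8*j+3) (4*p+2) true) = zz at *
  generalize P (.gp (8*j+3) (4*p+2) true) = zz' at *
  generalize P (.g (8*j+6) (4*p) true) = AA at *
  generalize P (.g (8*j) (4*p) true) = BB at *
  generalize P (.g (8*j+3) (4*p+1) true) = hh at *
  generalize P (.g (8*j+4) (4*p+1) true) = Q at *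
  generalize P (.g (8*j+4) (4*p+2) true) = X at *
  generalize P (.gp (8*j+4) (4*p+2) true) = X' at *
  generalize P (.g 0 (4*p+2) true) = x2 at *
  generalize P (.gp 0 (4*p+2) true) = x2' at *
  generalize P (.g 0 (4*p+1) true) = x1 at *
  generalize P (.g 0 (4*p) true) = x0 at *
  generalize P (.g (8*j+3) 0 true) = a3 at *
  generalize P (.g (8*j+4) 0 true) = a4 at *
  generalize P (.g (8*j+6) 0 true) = a6 at *
  generalize P (.g (8*j) 0 true) = a0 at *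
  generalize P (.g 0 0 true) = o at *
  have := test_geom hdir he hs0 hs6 hv k1 k2 k3 k4 k5 k6 k7 k8 T1 T2 T3 D1 D2 D3 D4 D5 D6 D7
  exact ⟨fun h => this.1 (tt h) (tt' h), fun h => this.2 (tf h) (tf' h)⟩

end Run7.h704.UD
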